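import Pool.Agent.H48.SE.Main16

/-!
# MP_993212_an: for `2 × 2` matrices over `ℕ` with `16 |det| ≤ tr²` and irrational eigenvalues,
strong shift equivalence over `ℕ`, shift equivalence over `ℕ` and shift equivalence over `ℤ`
coincide
-/

set_option autoImplicit false

namespace Pool.Agent.Results.MP_993212_an.ShiftEqSixteen

open Matrix

/-- Elementary equivalence of square matrices over `ℕ`: `A = R S`, `B = S R` for rectangular
matrices `R`, `S` over `ℕ`. -/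
def Elem (X Y : Σ n : ℕ, Matrix (Fin n) (Fin n) ℕ) : Prop :=
  ∃ (R : Matrix (Fin X.1) (Fin Y.1) ℕ) (S : Matrix (Fin Y.1) (Fin X.1) ℕ),
    X.2 = R * S ∧ Y.2 = S * R

/-- Strong shift equivalence over `ℕ` (a finite chain of elementary equivalences). -/
def SSE {n m : ℕ} (A : Matrix (Fin n) (Fin n) ℕ) (B : Matrix (Fin m) (Fin m) ℕ) : Prop :=
  Relation.TransGen Elem ⟨n, A⟩ ⟨m, B⟩

/-- Shift equivalence of square matrices over a semiring `k` (used for `k = ℕ` and `k = ℤ`). -/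
def SE (k : Type) [Semiring k] {n m : ℕ} (A : Matrix (Fin n) (Fin n) k)
    (B : Matrix (Fin m) (Fin m) k) : Prop :=
  ∃ l, 1 ≤ l ∧ ∃ (R : Matrix (Fin n) (Fin m) k) (S : Matrix (Fin m) (Fin n) k),
    A ^ l = R * S ∧ B ^ l = S * R ∧ A * R = R * B ∧ S * A = B * S

theorem result (A B : Matrix (Fin 2) (Fin 2) ℕ)
    (hquad : 16 * |(A.map (Nat.cast : ℕ → ℤ)).det| ≤ (A.map (Nat.cast : ℕ → ℤ)).trace ^ 2)
    (hns : ¬ IsSquare ((A.map (Nat.cast : ℕ → ℤ)).trace ^ 2 -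
      4 * (A.map (Nat.cast : ℕ → ℤ)).det)) :
    (SSE A B ↔ SE ℕ A B) ∧
      (SE ℕ A B ↔ SE ℤ (A.map (Nat.cast : ℕ → ℤ)) (B.map (Nat.cast : ℕ → ℤ))) := by
  have h1 : SSE A B → SE ℕ A B := fun h =>
    Pool.Agent.Y321.SE2.se_of_transGen (fun _ _ hXY => hXY) h
  have h2 : SE ℕ A B → SE ℤ (A.map (Nat.cast : ℕ → ℤ)) (B.map (Nat.cast : ℕ → ℤ)) :=
    Pool.Agent.Y321.SE2.seZ_of_seN
  have h3 : SE ℤ (A.map (Nat.cast : ℕ → ℤ)) (B.map (Nat.cast : ℕ → ℤ)) → SSE A B := fun h =>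
    Pool.Agent.Y321.SE2.transGen_of_Q (fun _ _ R S => ⟨R, S, rfl, rfl⟩) A B
      (Pool.Agent.H48.SE.Q_of_seZ16 A B hquad hns h)
  exact ⟨⟨h1, fun h => h3 (h2 h)⟩, ⟨h2, fun h => h1 (h3 h)⟩⟩

end Pool.Agent.Results.MP_993212_an.ShiftEqSixteen
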